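import Pool.Agent.Helper7.EC_E.GoalsM

set_option autoImplicit false

open MeasureTheory Filter Topology Set

namespace EC237.ZE.PkMP

/-- the antiderivative -/
noncomputable def H (a t : ℝ) : ℝ :=
  a ^ 2 * t / (t ^ 2 + a ^ 2) ^ 4 + t / (6 * (t ^ 2 + a ^ 2) ^ 3) +
    5 * t / (24 * a ^ 2 * (t ^ 2 + a ^ 2) ^ 2) + 5 * t / (16 * a ^ 4 * (t ^ 2 + a ^ 2)) +
    5 / (16 * a ^ 5) * Real.arctan (t / a)

lemma hasDerivAt_H {a : ℝ} (ha : 0 < a) (t : ℝ) :
    HasDerivAt (H a) (a ^ 2 * (2 * a ^ 2 - 6 * t ^ 2) / (t ^ 2 + a ^ 2) ^ 5) t := by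
  have hs : t ^ 2 + a ^ 2 ≠ 0 := by positivity
  have h0 : HasDerivAt (fun t : ℝ => t ^ 2 + a ^ 2) (2 * t) t := by
    simpa using (hasDerivAt_pow 2 t).add_const (a ^ 2)
  have hid : HasDerivAt (fun t : ℝ => t) 1 t := hasDerivAt_id t
  have p4 : HasDerivAt (fun t : ℝ => (t ^ 2 + a ^ 2) ^ 4) (4 * (t ^ 2 + a ^ 2) ^ 3 * (2 * t)) t := by
    exact (h0.fun_pow 4).congr_deriv (by norm_num)
  have p3 : HasDerivAt (fun t : ℝ => (t ^ 2 + a ^ 2) ^ 3) (3 * (t ^ 2 + a ^ 2) ^ 2 * (2 * t)) t := by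
    exact (h0.fun_pow 3).congr_deriv (by norm_num)
  have p2 : HasDerivAt (fun t : ℝ => (t ^ 2 + a ^ 2) ^ 2) (2 * (t ^ 2 + a ^ 2) * (2 * t)) t := by
    exact (h0.fun_pow 2).congr_deriv (by norm_num)
  have h1 := (hid.const_mul (a ^ 2)).div p4 (by positivity)
  have h2 := hid.div (p3.const_mul 6) (by positivity)
  have h3 := (hid.const_mul 5).div (p2.const_mul (24 * a ^ 2)) (by positivity)
  have h4 := (hid.const_mul 5).div (h0.const_mul (16 * a ^ 4)) (by positivity)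
  have h5 := ((hid.div_const a).arctan).const_mul (5 / (16 * a ^ 5))
  have := (((h1.add h2).add h3).add h4).add h5
  refine (this.congr_deriv ?_)
  have e : (1 : ℝ) + (t / a) ^ 2 = (t ^ 2 + a ^ 2) / a ^ 2 := by field_simp; ring
  rw [e]
  field_simp
  ring

lemma tendsto_aux (a : ℝ) (ha : 0 < a) (n : ℕ) (l : Filter ℝ) (hl : Tendsto (fun t : ℝ => |t|) l atTop) :
    Tendsto (fun t : ℝ => t / (t ^ 2 + a ^ 2) ^ (n + 1)) l (𝓝 0) := by
  have h1 : ∀ᶠ t in l, ‖t / (t ^ 2 + a ^ 2) ^ (n + 1)‖ ≤ (1 / |t|) := by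
    filter_upwards [hl.eventually_ge_atTop 1] with t ht
    have h2 : (t ^ 2) ≤ (t ^ 2 + a ^ 2) ^ (n + 1) := by
      have h3 : t ^ 2 ≤ t ^ 2 + a ^ 2 := by nlinarith [sq_nonneg a]
      have h4 : 1 ≤ t ^ 2 + a ^ 2 := by nlinarith [sq_nonneg a, sq_abs t]
      calc t ^ 2 ≤ t ^ 2 + a ^ 2 := h3
        _ ≤ (t ^ 2 + a ^ 2) ^ (n + 1) := le_self_pow₀ h4 (by omega)
    rw [norm_div, Real.norm_eq_abs, Real.norm_eq_abs, abs_of_nonneg (by positivity : (0:ℝ) ≤ (t ^ 2 + a ^ 2) ^ (n + 1))]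
    rw [div_le_div_iff₀ (by positivity) (by positivity)]
    nlinarith [sq_abs t]
  refine squeeze_zero_norm' h1 ?_
  exact tendsto_const_nhds.div_atTop hl

lemma tendsto_H {a : ℝ} (ha : 0 < a) (l : Filter ℝ) (hl : Tendsto (fun t : ℝ => |t|) l atTop) {m : ℝ}
    (hm : Tendsto (fun t : ℝ => Real.arctan (t / a)) l (𝓝 m)) :
    Tendsto (H a) l (𝓝 (5 / (16 * a ^ 5) * m)) := by
  have t1 := (tendsto_aux a ha 3 l hl).const_mul (a ^ 2)
  have t2 := (tendsto_aux a ha 2 l hl).const_mul (1 / 6)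
  have t3 := (tendsto_aux a ha 1 l hl).const_mul (5 / (24 * a ^ 2))
  have t4 := (tendsto_aux a ha 0 l hl).const_mul (5 / (16 * a ^ 4))
  have t5 := hm.const_mul (5 / (16 * a ^ 5))
  have := (((t1.add t2).add t3).add t4).add t5
  simp only [mul_zero, zero_add] at this
  refine this.congr (fun t => ?_)
  have hs : t ^ 2 + a ^ 2 ≠ 0 := by positivity
  unfold H
  field_simp
  ring

theorem thm : EC237.ZE.G_MP := by
  intro k hk
  set a : ℝ := |(k:ℝ)| with ha_def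
  have ha1 : 1 ≤ a := by
    rw [ha_def]
    have : (1:ℤ) ≤ |k| := Int.one_le_abs hk
    exact_mod_cast this
  have ha : 0 < a := by linarith
  have hk2 : (k:ℝ) ^ 2 = a ^ 2 := (sq_abs _).symm
  simp only [hk2]
  have hint : Integrable (fun t : ℝ => a ^ 2 * (2 * a ^ 2 - 6 * t ^ 2) / (t ^ 2 + a ^ 2) ^ 5) := by
    have hb : Integrable (fun t : ℝ => (6 * a ^ 2) * (1 + t ^ 2)⁻¹) :=
      integrable_inv_one_add_sq.const_mul _
    refine hb.mono' ?_ ?_
    · have : Continuous (fun t : ℝ => a ^ 2 * (2 * a ^ 2 - 6 * t ^ 2) / (t ^ 2 + a ^ 2) ^ 5) := by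
        refine Continuous.div (by fun_prop) (by fun_prop) (fun t => by positivity)
      exact this.aestronglyMeasurable
    · refine ae_of_all _ (fun t => ?_)
      have hs : 1 ≤ t ^ 2 + a ^ 2 := by nlinarith [sq_nonneg t]
      rw [Real.norm_eq_abs, abs_div, abs_of_pos (by positivity : (0:ℝ) < (t ^ 2 + a ^ 2) ^ 5)]
      have h1 : |a ^ 2 * (2 * a ^ 2 - 6 * t ^ 2)| ≤ 6 * a ^ 2 * (t ^ 2 + a ^ 2) := by
        rw [abs_le]
        constructor <;> nlinarith [sq_nonneg t, sq_nonneg a, mul_nonneg (sq_nonneg a) (sq_nonneg t), mul_nonneg (sq_nonneg a) (sq_nonneg a)]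
      calc |a ^ 2 * (2 * a ^ 2 - 6 * t ^ 2)| / (t ^ 2 + a ^ 2) ^ 5
          ≤ 6 * a ^ 2 * (t ^ 2 + a ^ 2) / (t ^ 2 + a ^ 2) ^ 5 := by gcongr
        _ = 6 * a ^ 2 * (1 / (t ^ 2 + a ^ 2) ^ 4) := by
            have : t ^ 2 + a ^ 2 ≠ 0 := by positivity
            field_simp
        _ ≤ 6 * a ^ 2 * (1 + t ^ 2)⁻¹ := by
            rw [one_div]
            gcongr
            calc 1 + t ^ 2 ≤ t ^ 2 + a ^ 2 := by nlinarith
              _ ≤ (t ^ 2 + a ^ 2) ^ 4 := le_self_pow₀ hs (by norm_num)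
  refine ⟨hint, ?_⟩
  have htop : Tendsto (H a) atTop (𝓝 (5 / (16 * a ^ 5) * (Real.pi / 2))) := by
    apply tendsto_H ha atTop tendsto_abs_atTop_atTop
    have : Tendsto (fun t : ℝ => t / a) atTop atTop := tendsto_id.atTop_div_const ha
    exact (tendsto_nhds_of_tendsto_nhdsWithin Real.tendsto_arctan_atTop).comp this
  have hbot : Tendsto (H a) atBot (𝓝 (5 / (16 * a ^ 5) * (-(Real.pi / 2)))) := by
    apply tendsto_H ha atBot tendsto_abs_atBot_atTop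
    have : Tendsto (fun t : ℝ => t / a) atBot atBot := tendsto_id.atBot_div_const ha
    exact (tendsto_nhds_of_tendsto_nhdsWithin Real.tendsto_arctan_atBot).comp this
  rw [integral_of_hasDerivAt_of_tendsto (fun t => hasDerivAt_H ha t) hint hbot htop]
  field_simp
  ring

end EC237.ZE.PkMP
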